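import Mathlib
import Pool.Graph.R_seed8.H524R3.ExpDefs
import Pool.Graph.R_seed8.W719.AEC.Defs

/-!
# Quantum G invariants of graph manifolds for every compact simple simply connected G (definitions)
-/

set_option autoImplicit false

open Finset
open scoped InnerProductSpace

namespace H391.AE

/-- Euclidean n-space. -/
abbrev V (n : ℕ) := EuclideanSpace ℝ (Fin n)

/-- The reflection in the hyperplane orthogonal to α. -/
noncomputable def refl {n : ℕ} (α : V n) : V n ≃ₗᵢ[ℝ] V n :=
  (Submodule.span ℝ {α})ᗮ.reflection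

/-- R is a (reduced, crystallographic) root system in its span. -/
structure IsRS {n : ℕ} (R : Finset (V n)) : Prop where
  ne0 : (0 : V n) ∉ R
  refl_mem : ∀ α ∈ R, ∀ β ∈ R, refl α β ∈ R
  int : ∀ α ∈ R, ∀ β ∈ R, ∃ z : ℤ, 2 * inner ℝ α β = z * inner ℝ α α
  red : ∀ α ∈ R, ∀ c : ℝ, c • α ∈ R → c = 1 ∨ c = -1

/-- R is an irreducible root system of rank n, normalised so that the long roots have square length 2:
the root system of a simple simply connected compact Lie group of rank n. -/
structure Simple {n : ℕ} (R : Finset (V n)) : Prop extends IsRS R where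
  span_top : Submodule.span ℝ (R : Set (V n)) = ⊤
  irr : ∀ S ⊆ R, S.Nonempty → S ≠ R → ∃ α ∈ S, ∃ β ∈ R, β ∉ S ∧ inner ℝ α β ≠ 0
  short : ∀ α ∈ R, inner ℝ α α ≤ 2
  long : ∃ α ∈ R, inner ℝ α α = 2

/-- The Weyl group. -/
noncomputable def W {n : ℕ} (R : Finset (V n)) : Subgroup (V n ≃ₗᵢ[ℝ] V n) :=
  Subgroup.closure {s | ∃ α ∈ R, s = refl α}

/-- The set of the elements of the Weyl group. -/
def WSet {n : ℕ} (R : Finset (V n)) : Set (V n ≃ₗᵢ[ℝ] V n) := {w : V n ≃ₗᵢ[ℝ] V n | w ∈ W R}

open Classical in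
/-- The Weyl group (it is finite) as a finite set. -/
noncomputable def Wf {n : ℕ} (R : Finset (V n)) : Finset (V n ≃ₗᵢ[ℝ] V n) :=
  if h : (WSet R).Finite then h.toFinset else ∅

/-- The determinant of an isometry. -/
noncomputable def sg {n : ℕ} (w : V n ≃ₗᵢ[ℝ] V n) : ℝ :=
  LinearMap.det (w.toLinearEquiv : V n →ₗ[ℝ] V n)

open Classical in
/-- The positive roots for a regular vector δ. -/
noncomputable def pos {n : ℕ} (R : Finset (V n)) (δ : V n) : Finset (V n) :=
  R.filter fun α => 0 < inner ℝ δ α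

/-- The half sum of the positive roots. -/
noncomputable def rho {n : ℕ} (R : Finset (V n)) (δ : V n) : V n :=
  (1 / 2 : ℝ) • ∑ α ∈ pos R δ, α

/-- a is an integral weight: ⟨a, α^∨⟩ is an integer for all roots α. -/
def IsWt {n : ℕ} (R : Finset (V n)) (a : V n) : Prop :=
  ∀ α ∈ R, ∃ z : ℤ, 2 * inner ℝ α a = z * inner ℝ α α

/-- The weight lattice. -/
def wtLattice {n : ℕ} (R : Finset (V n)) : AddSubgroup (V n) where
  carrier := {a | IsWt R a}
  zero_mem' := fun α _ => ⟨0, by simp⟩
  add_mem' := by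
    intro a b ha hb α hα
    obtain ⟨y, hy⟩ := ha α hα
    obtain ⟨z, hz⟩ := hb α hα
    exact ⟨y + z, by rw [inner_add_right, mul_add, hy, hz]; push_cast; ring⟩
  neg_mem' := by
    intro a ha α hα
    obtain ⟨y, hy⟩ := ha α hα
    exact ⟨-y, by rw [inner_neg_right]; push_cast; linarith⟩

/-- The coroot lattice. -/
def corootLattice {n : ℕ} (R : Finset (V n)) : AddSubgroup (V n) :=
  AddSubgroup.closure {x | ∃ α ∈ R, x = (2 / inner ℝ α α) • α}

/-- The index of the coroot lattice in the weight lattice. -/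
noncomputable def idx {n : ℕ} (R : Finset (V n)) : ℕ := (corootLattice R).relIndex (wtLattice R)

/-- The labels a = λ + ρ, λ a dominant integral weight of level r - h^∨: the integral weights a with
0 < ⟨a, α⟩ < r for all positive roots α. -/
def IsLab {n : ℕ} (R : Finset (V n)) (δ : V n) (r : ℕ) (a : V n) : Prop :=
  IsWt R a ∧ ∀ α ∈ pos R δ, 0 < inner ℝ α a ∧ inner ℝ α a < r

open Classical in
/-- The (finite) set of labels. -/
noncomputable def labels {n : ℕ} (R : Finset (V n)) (δ : V n) (r : ℕ) : Finset (V n) :=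
  if h : {a : V n | IsLab R δ r a}.Finite then h.toFinset else ∅

/-- The S-matrix (Kac-Peterson formula), labels a = λ + ρ, b = μ + ρ:
S_{λμ} = i^|R+| |P / r Q^∨|^(-1/2) ∑_{w ∈ W} det(w) exp (-2 π i ⟨w a, b⟩ / r), |P / r Q^∨| = [P : Q^∨] r^n. -/
noncomputable def Smat {n : ℕ} (R : Finset (V n)) (δ : V n) (r : ℕ) (a b : V n) : ℂ :=
  Complex.I ^ (pos R δ).card / ((Real.sqrt (idx R * (r : ℝ) ^ n) : ℝ) : ℂ) *
    ∑ w ∈ Wf R, ((sg w : ℝ) : ℂ) *
      Complex.exp (-(2 * Real.pi * Complex.I * (((inner ℝ (w a) b : ℝ) : ℂ) / r)))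

/-- The twist θ_λ = exp (π i (|λ + ρ|^2 - |ρ|^2) / r). -/
noncomputable def twist {n : ℕ} (R : Finset (V n)) (δ : V n) (r : ℕ) (a : V n) : ℂ :=
  Complex.exp (Real.pi * Complex.I *
    (((inner ℝ a a - inner ℝ (rho R δ) (rho R δ) : ℝ) : ℂ) / r))

open W719AEC (PlumbingGraph)

/-- The level r - h^∨ quantum G invariant (Witten's normalisation: 1 on S^1 x S^2 and S_{00} on S^3) of the
closed oriented 3-manifold of the plumbing graph Γ, up to a factor of absolute value 1 that depends on the
2-framing: the state sum over all colourings x of the vertices by labels of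
∏_v θ_(x v)^(euler v) S_{0,x v}^(2 - 2 genus v - degree v) times ∏_e S_{x (src e), x (tgt e)}, where for a
negative edge the entry S_{λμ} is replaced by its complex conjugate S_{λμ*}. -/
noncomputable def Z {n : ℕ} (R : Finset (V n)) (δ : V n) {v m : ℕ} (Γ : PlumbingGraph v m) (r : ℕ) : ℂ :=
  ∑ x ∈ Fintype.piFinset (fun _ : Fin v => labels R δ r),
    (∏ u, twist R δ r (x u) ^ Γ.euler u *
      Smat R δ r (rho R δ) (x u) ^ (2 - 2 * (Γ.genus u : ℤ) - (Γ.degree u : ℤ))) *
    ∏ e, (if Γ.positive e then Smat R δ r (x (Γ.src e)) (x (Γ.tgt e))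
      else (starRingEnd ℂ) (Smat R δ r (x (Γ.src e)) (x (Γ.tgt e))))

/-- The plumbing graph with two vertices of genus 1 and Euler number 0 and 2 p edges joining them, p of
each sign. Its closed oriented 3-manifold is the union of two copies of F x S^1, F the torus with 2 p open
discs removed, glued along all 2 p boundary tori by exchanging the fibre and the boundary of the base. -/
def multiEdge (p : ℕ) : PlumbingGraph 2 (2 * p) where
  genus := ![1, 1]
  euler := ![0, 0]
  src := fun _ => 0
  tgt := fun _ => 1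
  positive := fun e => decide ((e : ℕ) < p)

end H391.AE
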