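import Mathlib
import Pool.Agent.H391.AE.D

/-!
# Statements of the steps
-/

set_option autoImplicit false

open Finset
open scoped InnerProductSpace

namespace H391.AE

/-- complexified pairing of a real vector with the complex vector z.1 + i z.2 -/
noncomputable def cp {n : ℕ} (a : V n) (z : V n × V n) : ℂ :=
  ((inner ℝ a z.1 : ℝ) : ℂ) + ((inner ℝ a z.2 : ℝ) : ℂ) * Complex.I

/-- E_R(a, z) = ∑_w det(w) exp (i ⟨w a, z⟩) -/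
noncomputable def E {n : ℕ} (R : Finset (V n)) (a : V n) (z : V n × V n) : ℂ :=
  ∑ w ∈ Wf R, ((sg w : ℝ) : ℂ) * Complex.exp (Complex.I * cp (w a) z)

/-- the complex vector z + ζ v -/
noncomputable def shift {n : ℕ} (z : V n × V n) (v : V n) (ζ : ℂ) : V n × V n :=
  (z.1 + ζ.re • v, z.2 + ζ.im • v)

/-- distance to the nearest integer -/
noncomputable def nd (x : ℝ) : ℝ := |x - round x|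

open Classical in
/-- the roots that are integral on v -/
noncomputable def Rint {n : ℕ} (R : Finset (V n)) (v : V n) : Finset (V n) :=
  R.filter fun α => ∃ z : ℤ, inner ℝ v α = z

open Classical in
/-- the roots orthogonal to x -/
noncomputable def Rz {n : ℕ} (R : Finset (V n)) (x : V n) : Finset (V n) :=
  R.filter fun α => inner ℝ x α = 0

/-- Ψ is a symmetric subset of R closed under addition in R. -/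
structure Cl {n : ℕ} (R Ψ : Finset (V n)) : Prop where
  sub : Ψ ⊆ R
  neg : ∀ α ∈ Ψ, -α ∈ Ψ
  add : ∀ α ∈ Ψ, ∀ β ∈ Ψ, α + β ∈ R → α + β ∈ Ψ

/-- δ is regular -/
def Reg {n : ℕ} (R : Finset (V n)) (δ : V n) : Prop := ∀ α ∈ R, inner ℝ δ α ≠ 0

def S_fin : Prop := ∀ (n : ℕ) (R : Finset (V n)), IsRS R → {w : V n ≃ₗᵢ[ℝ] V n | w ∈ W R}.Finite

/-- basic facts on W -/
def S_W : Prop := ∀ (n : ℕ) (R : Finset (V n)), IsRS R →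
  (∀ w, w ∈ Wf R ↔ w ∈ W R) ∧ (∀ w ∈ Wf R, ∀ α ∈ R, w α ∈ R) ∧ (∀ w ∈ Wf R, sg w = 1 ∨ sg w = -1) ∧
  (∀ α ∈ R, sg (refl α) = -1) ∧ (∀ α ∈ R, -α ∈ R) ∧
  (∀ Φ ⊆ R, IsRS Φ → Wf Φ ⊆ Wf R) ∧
  (∀ w ∈ Wf R, ∀ x : V n, (∀ α ∈ R, inner ℝ α x = 0) → w x = x) ∧
  (∀ α : V n, α ≠ 0 → ∀ x : V n, refl α x = x - (2 * inner ℝ α x / inner ℝ α α) • α) ∧
  (∀ w : V n ≃ₗᵢ[ℝ] V n, w ∈ Wf R → ∀ (M : Type) [CommMonoid M] (f : V n → M),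
    ∏ α ∈ R, f (w α) = ∏ α ∈ R, f α)

def S_alt : Prop := ∀ (n : ℕ) (R : Finset (V n)), IsRS R → ∀ (a : V n) (z : V n × V n), ∀ α ∈ R,
  (inner ℝ α a = 0 → E R a z = 0) ∧ (cp α z = 0 → E R a z = 0)

def S_ld : Prop := ∀ (n : ℕ) (R : Finset (V n)), IsRS R → ∀ Φ ⊆ R, IsRS Φ → ∀ (a : V n) (z : V n × V n),
  ‖E R a z‖ ≤ ∑ w ∈ Wf R, ‖E Φ a (w⁻¹ z.1, w⁻¹ z.2)‖

def S_proj : Prop := ∀ (n : ℕ) (R : Finset (V n)), IsRS R → ∀ (a p : V n) (z : V n × V n),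
  (∀ α ∈ R, inner ℝ α (a - p) = 0) → ‖E R a z‖ = Real.exp (-inner ℝ (a - p) z.2) * ‖E R p z‖

def S_comp : Prop := ∀ (n : ℕ) (R : Finset (V n)), IsRS R → ∃ ε : ℝ, 0 < ε ∧
  ∀ a ∈ Submodule.span ℝ (R : Set (V n)), a ≠ 0 → ∃ x : V n, (∃ α ∈ R, inner ℝ x α ≠ 0) ∧
    ∀ α ∈ R, inner ℝ x α ≠ 0 → ε * ‖a‖ ≤ |inner ℝ α a|

def S_gv : Prop := ∀ (n : ℕ) (R : Finset (V n)), IsRS R → ∃ C : ℝ, 0 ≤ C ∧ ∀ z : V n × V n,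
  (∀ β ∈ R, cp β z ≠ 0) → ∃ v : V n, ‖v‖ ≤ C ∧ (∀ β ∈ R, 1 ≤ |inner ℝ β v|) ∧
    ∀ β ∈ R, ∀ γ ∈ R, γ ≠ β → γ ≠ -β → cp β z * ((inner ℝ γ v : ℝ) : ℂ) ≠ cp γ z * ((inner ℝ β v : ℝ) : ℂ)

def S_ca : Prop := ∀ (g : ℂ → ℂ), Differentiable ℂ g → ∀ T : Finset ℂ, (∀ t ∈ T, g t = 0) →
  ∀ ρ : ℝ, 0 < ρ → (∀ t ∈ T, ‖t‖ ≠ ρ) → ∀ B : ℝ, 0 ≤ B →
  (∀ ζ : ℂ, ‖ζ‖ = ρ → ‖g ζ‖ ≤ B * ∏ t ∈ T, ‖ζ - t‖) → ‖g 0‖ ≤ B * ∏ t ∈ T, ‖t‖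

/-- contour lemma -/
def S_cl : Prop := ∀ (n : ℕ) (R : Finset (V n)), IsRS R → ∃ c C : ℝ, 0 < c ∧ 0 ≤ C ∧
  ∀ (p : V n) (z : V n × V n) (m : ℝ), (∀ β ∈ R, cp β z ≠ 0) → 0 < m →
  ∃ (v : V n) (ρ : ℝ), ‖v‖ ≤ C ∧ m ≤ ρ ∧ ρ ≤ 2 * m ∧
    (∀ ζ : ℂ, ‖ζ‖ = ρ → ∀ β ∈ R, c * m ≤ ‖cp β (shift z v ζ)‖) ∧
    ∀ B : ℝ, 0 ≤ B → (∀ ζ : ℂ, ‖ζ‖ = ρ → ‖E R p (shift z v ζ)‖ ^ 2 ≤
      B * ∏ β ∈ R, ‖cp β (shift z v ζ)‖) → ‖E R p z‖ ^ 2 ≤ B * ∏ β ∈ R, ‖cp β z‖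

/-- the basic bound -/
def S_F1 : Prop := ∀ (n : ℕ) (R : Finset (V n)), IsRS R → ∃ C : ℝ, 0 ≤ C ∧
  ∀ (a : V n) (z : V n × V n), ‖E R a z‖ ^ 2 ≤
    C * (∏ α ∈ R, (|inner ℝ α a| * ‖cp α z‖)) * Real.exp (C * (‖a‖ * ‖z.2‖))

def S_rs : Prop := ∀ (n : ℕ) (R : Finset (V n)), IsRS R → ∀ α ∈ R, ∀ β ∈ R, inner ℝ α β < 0 → β ≠ -α → α + β ∈ R

def S_sp : Prop := ∀ (n : ℕ) (R : Finset (V n)), Simple R → ∀ Ψ : Finset (V n), Cl R Ψ → Ψ ≠ R →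
  Submodule.span ℝ {α : V n | α ∈ R ∧ α ∉ Ψ} = ⊤

def S_cov : Prop := ∀ (n : ℕ) (R : Finset (V n)), Simple R → ∀ Ψ₁ Ψ₂ : Finset (V n),
  Cl R Ψ₁ → Cl R Ψ₂ → Ψ₁ ≠ R → Ψ₂ ≠ R → ∃ α ∈ R, α ∉ Ψ₁ ∧ α ∉ Ψ₂

def S_sub : Prop := ∀ (n : ℕ) (R : Finset (V n)), IsRS R → ∀ v : V n,
  (IsRS (Rint R v) ∧ Cl R (Rint R v)) ∧ (IsRS (Rz R v) ∧ Cl R (Rz R v))

/-- decay near the origin -/
def S_hb : Prop := ∀ (n : ℕ) (R : Finset (V n)), Simple R → ∃ C : ℝ, 0 ≤ C ∧ ∀ a b : V n,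
  (‖a‖ * ‖b‖) ^ 2 * ‖E R a (b, 0)‖ ^ 2 ≤ C * ∏ α ∈ R, (|inner ℝ α a| * |inner ℝ α b|)

def S_ac : Prop := ∀ (n : ℕ) (R : Finset (V n)), Simple R → ∃ ε : ℝ, 0 < ε ∧
  ∀ x : V n, (∀ α ∈ R, |inner ℝ α x| ≤ 1) → ∃ v : V n, (∀ α ∈ R, |inner ℝ α (x - v)| ≤ 1 / 2) ∧
    ∀ α ∈ R, α ∉ Rint R v → ε ≤ nd (inner ℝ α x)

def S_q : Prop := ∀ (n : ℕ) (R : Finset (V n)), Simple R → ∀ α ∈ R, ∃ q : ℕ, 1 ≤ q ∧ q ≤ 3 ∧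
  (q : ℝ) * inner ℝ α α = 2

def S_dd : Prop := ∀ (n : ℕ) (R : Finset (V n)), IsRS R → (∀ α ∈ R, ∃ q : ℕ, (q : ℝ) * inner ℝ α α = 2) →
  ∀ r : ℕ, 1 ≤ r → ∀ a b : V n, IsWt R a → IsWt R b → ∀ v₁ v₂ : V n,
  ‖E R ((2 * Real.pi / r) • a) (b, 0)‖ ≤ ∑ w ∈ Wf R, ∑ u ∈ Wf (Rint R v₁),
    ‖E (Rint (Rint R v₁) (w⁻¹ v₂)) ((2 * Real.pi / r) • u⁻¹ (a - (r : ℝ) • v₁))
      (w⁻¹ (b - (r : ℝ) • v₂), 0)‖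

/-- a, b are weights, regular, in the alcove range -/
def Good {n : ℕ} (R : Finset (V n)) (r : ℕ) (a : V n) : Prop :=
  IsWt R a ∧ ∀ α ∈ R, inner ℝ α a ≠ 0 ∧ |inner ℝ α a| < r

def S_nd : Prop := ∀ (n : ℕ) (R : Finset (V n)), Simple R → ∀ r : ℕ, 1 ≤ r → ∀ a : V n, Good R r a →
  ∀ α ∈ R, 1 / (3 * (r : ℝ)) ≤ nd (inner ℝ α a / r)

/-- the uniform bound with decay -/
def S_U : Prop := ∀ (n : ℕ) (R : Finset (V n)), Simple R → ∃ C : ℝ, 0 ≤ C ∧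
  ∀ r : ℕ, 1 ≤ r → ∀ a b : V n, Good R r a → Good R r b → ∀ α ∈ R, ∀ β ∈ R,
  ‖E R ((2 * Real.pi / r) • a) (b, 0)‖ ^ 2 * (1 + (r * nd (inner ℝ α a / r) * nd (inner ℝ β b / r)) ^ 2) ≤
    C * (r : ℝ) ^ R.card * ∏ γ ∈ R, (nd (inner ℝ γ a / r) * nd (inner ℝ γ b / r))

/-- the normalised square of the ratio |S_ab| / (S_0a S_0b) -/
noncomputable def G {n : ℕ} (R : Finset (V n)) (r : ℕ) (a b : V n) : ℝ :=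
  ‖E R ((2 * Real.pi / r) • a) (b, 0)‖ ^ 2 /
    ((r : ℝ) ^ R.card * ∏ α ∈ R, (|Real.sin (Real.pi * (inner ℝ α a / r))| * |Real.sin (Real.pi * (inner ℝ α b / r))|))

def S_lab : Prop := ∀ (n : ℕ) (R : Finset (V n)), Simple R → ∀ δ : V n, Reg R δ → ∀ r : ℕ,
  (∀ a, a ∈ labels R δ r ↔ IsLab R δ r a) ∧ (∀ a ∈ labels R δ r, Good R r a)

open Classical in
/-- counting labels close to a special point -/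
def S_cnt : Prop := ∀ (n : ℕ) (R : Finset (V n)), Simple R → ∀ δ : V n, Reg R δ → ∃ C : ℝ, 0 ≤ C ∧
  ∀ r : ℕ, 1 ≤ r → ∀ X : ℝ, 1 ≤ X →
  (((labels R δ r).filter fun a => ∀ α ∈ R, (r : ℝ) * nd (inner ℝ α a / r) ≤ X).card : ℝ) ≤ C * X ^ n

/-- summation lemma -/
def S_sum : Prop := ∀ n p : ℕ, 1 ≤ n → n < 2 * p → ∀ C : ℝ, 0 ≤ C → ∃ C' : ℝ, 0 ≤ C' ∧ ∀ r : ℕ, 2 ≤ r →
  ∀ (ι : Type) (L : Finset ι) (M : ι → ℝ), (∀ a ∈ L, 1 / 3 ≤ M a ∧ M a ≤ r) →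
  (∀ X : ℝ, 1 ≤ X → ((L.filter fun a => M a ≤ X).card : ℝ) ≤ C * X ^ n) →
  ∑ a ∈ L, ∑ b ∈ L, (1 / (1 + (M a * M b / r) ^ 2)) ^ p ≤ C' * ((r : ℝ) ^ n * Real.log r)

/-- upper bound for the sum -/
def S_up : Prop := ∀ (n : ℕ) (R : Finset (V n)), Simple R → ∀ δ : V n, Reg R δ → ∀ p : ℕ, n < 2 * p →
  ∃ C : ℝ, 0 ≤ C ∧ ∀ r : ℕ, 2 ≤ r →
  ∑ a ∈ labels R δ r, ∑ b ∈ labels R δ r, G R r a b ^ p ≤ C * ((r : ℝ) ^ n * Real.log r)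

def S_pol : Prop := ∀ (n : ℕ) (R : Finset (V n)), IsRS R → ∀ δ : V n, Reg R δ →
  ∃ a b : V n, ∑ w ∈ Wf R, sg w * inner ℝ (w a) b ^ (pos R δ).card ≠ 0

def S_tay : Prop := ∀ (n : ℕ) (R : Finset (V n)), IsRS R → ∀ δ : V n, Reg R δ → ∃ C : ℝ, 0 ≤ C ∧
  2 * (pos R δ).card = R.card ∧ ∀ a b : V n, ‖a‖ * ‖b‖ ≤ 1 →
    ‖E R a (b, 0) - Complex.I ^ (pos R δ).card / ((pos R δ).card.factorial : ℂ) *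
      ((∑ w ∈ Wf R, sg w * inner ℝ (w a) b ^ (pos R δ).card : ℝ) : ℂ)‖ ≤
      C * (‖a‖ * ‖b‖) ^ ((pos R δ).card + 1)

def S_ch : Prop := ∀ (n : ℕ) (R : Finset (V n)), IsRS R → ∀ δ : V n, Reg R δ → ∀ x : V n, Reg R x →
  ∃ w ∈ Wf R, ∀ α ∈ pos R δ, 0 < inner ℝ α (w x)

/-- pointwise lower bound in two cones -/
def S_lp : Prop := ∀ (n : ℕ) (R : Finset (V n)), Simple R → ∀ δ : V n, Reg R δ →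
  ∃ (a₀ b₀ : V n) (η c : ℝ), 0 < η ∧ 0 < c ∧ η < ‖a₀‖ / 4 ∧ η < ‖b₀‖ / 4 ∧
    (∀ a, ‖a - a₀‖ ≤ η → ∀ α ∈ pos R δ, 0 < inner ℝ α a) ∧
    (∀ b, ‖b - b₀‖ ≤ η → ∀ α ∈ pos R δ, 0 < inner ℝ α b) ∧
    ∀ s t : ℝ, 0 < s → 0 < t → ∀ a b : V n, ‖a - s • a₀‖ ≤ η * s → ‖b - t • b₀‖ ≤ η * t →
      s * t ≤ η → c * (s * t) ^ R.card ≤ ‖E R a (b, 0)‖ ^ 2

/-- there are many weights in balls -/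
def S_cl2 : Prop := ∀ (n : ℕ) (R : Finset (V n)), Simple R → ∀ (a₀ : V n) (η : ℝ), 0 < η →
  ∃ (c X₀ : ℝ), 0 < c ∧ 1 ≤ X₀ ∧ ∀ X : ℝ, X₀ ≤ X → ∃ F : Finset (V n),
    (∀ a ∈ F, IsWt R a ∧ ‖a - X • a₀‖ ≤ η * X) ∧ c * X ^ n ≤ (F.card : ℝ)

/-- lower bound for the sum -/
def S_low : Prop := ∀ (n : ℕ) (R : Finset (V n)), Simple R → ∀ δ : V n, Reg R δ → ∀ p : ℕ,
  ∃ c : ℝ, 0 < c ∧ ∀ᶠ r : ℕ in Filter.atTop, c * ((r : ℝ) ^ n * Real.log r) ≤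
    ∑ a ∈ labels R δ r, ∑ b ∈ labels R δ r, G R r a b ^ p

/-- Weyl's denominator formula up to the order of the stabiliser of rho -/
def S_wdf : Prop := ∀ (n : ℕ) (R : Finset (V n)), IsRS R → ∀ δ : V n, Reg R δ → ∃ m : ℕ, 1 ≤ m ∧
  ∀ x : V n, E R (rho R δ) (x, 0) = m * ∏ α ∈ pos R δ,
    (Complex.exp (Complex.I * ((inner ℝ α x : ℝ) : ℂ) / 2) - Complex.exp (-(Complex.I * ((inner ℝ α x : ℝ) : ℂ) / 2)))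

def S_idx : Prop := ∀ (n : ℕ) (R : Finset (V n)), Simple R → 0 < idx R

/-- the invariant as a real sum -/
def S_Z : Prop := ∀ (n : ℕ) (R : Finset (V n)), Simple R → ∀ δ : V n, Reg R δ → ∀ p : ℕ,
  ∃ K : ℝ, 0 < K ∧ ∀ r : ℕ, 1 ≤ r → ‖Z R δ (multiEdge p) r‖ = K * (r : ℝ) ^ (p * (n + R.card)) *
    ∑ a ∈ labels R δ r, ∑ b ∈ labels R δ r, G R r a b ^ p

end H391.AE
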