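import Mathlib
import Pool.Agent.H391.AE.Fin
import Pool.Agent.H391.AE.P.fin
import Pool.Agent.H391.AE.P.W
import Pool.Agent.H391.AE.P.alt
import Pool.Agent.H391.AE.P.ld
import Pool.Agent.H391.AE.P.proj
import Pool.Agent.H391.AE.P.comp
import Pool.Agent.H391.AE.P.gv
import Pool.Agent.H391.AE.P.ca
import Pool.Agent.H391.AE.P.cl
import Pool.Agent.H391.AE.P.F1
import Pool.Agent.H391.AE.P.rs
import Pool.Agent.H391.AE.P.sub
import Pool.Agent.H391.AE.P.sp
import Pool.Agent.H391.AE.P.cov
import Pool.Agent.H391.AE.P.hb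
import Pool.Agent.H391.AE.P.ac
import Pool.Agent.H391.AE.P.q
import Pool.Agent.H391.AE.P.dd
import Pool.Agent.H391.AE.P.nd
import Pool.Agent.H391.AE.P.U
import Pool.Agent.H391.AE.P.lab
import Pool.Agent.H391.AE.P.cnt
import Pool.Agent.H391.AE.P.sum
import Pool.Agent.H391.AE.P.up
import Pool.Agent.H391.AE.P.pol
import Pool.Agent.H391.AE.P.tay
import Pool.Agent.H391.AE.P.ch
import Pool.Agent.H391.AE.P.lp
import Pool.Agent.H391.AE.P.cl2
import Pool.Agent.H391.AE.P.low
import Pool.Agent.H391.AE.P.wdf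
import Pool.Agent.H391.AE.P.idx
import Pool.Agent.H391.AE.P.Z

/-!
# Assembly
-/

set_option autoImplicit false

namespace H391.AE

theorem main : ∀ (n : ℕ) (R : Finset (V n)), Simple R → ∀ δ : V n, Reg R δ → ∀ p : ℕ, n < 2 * p →
    Concl R δ p := by
  have hfin : S_fin := P_fin.main
  have hW : S_W := P_W.main hfin
  have halt : S_alt := P_alt.main hW
  have hld : S_ld := P_ld.main hW
  have hproj : S_proj := P_proj.main hW
  have hcomp : S_comp := P_comp.main
  have hgv : S_gv := P_gv.main
  have hca : S_ca := P_ca.main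
  have hcl : S_cl := P_cl.main hW halt hgv hca
  have hsub : S_sub := P_sub.main hW
  have hF1 : S_F1 := P_F1.main hW halt hld hproj hsub hcomp hcl
  have hrs : S_rs := P_rs.main hW
  have hsp : S_sp := P_sp.main hrs hW
  have hcov : S_cov := P_cov.main hrs hW hsp
  have hhb : S_hb := P_hb.main hW halt hld hF1 hsub hcomp hcl hcov
  have hac : S_ac := P_ac.main
  have hq : S_q := P_q.main
  have hdd : S_dd := P_dd.main hW hsub hld
  have hnd : S_nd := P_nd.main hq
  have hU : S_U := P_U.main hW hF1 hhb hsub hsp hcov hac hdd hq hnd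
  have hlab : S_lab := P_lab.main hW
  have hcnt : S_cnt := P_cnt.main hlab
  have hsum : S_sum := P_sum.main
  have hup : S_up := P_up.main hU hnd hlab hcnt hsum
  have hpol : S_pol := P_pol.main hW
  have htay : S_tay := P_tay.main hW hF1
  have hch : S_ch := P_ch.main hW
  have hlp : S_lp := P_lp.main hW halt hpol htay hch
  have hcl2 : S_cl2 := P_cl2.main
  have hlow : S_low := P_low.main hW hlab hlp hcl2
  have hwdf : S_wdf := P_wdf.main hW hrs hch
  have hidx : S_idx := P_idx.main hW hq
  have hZ : S_Z := P_Z.main hW hlab hwdf hidx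
  exact fin_main hup hlow hZ

end H391.AE
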