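import Mathlib
import Pool.Agent.H391.AE.S

/-!
# Statements of the further steps (all p)
-/

set_option autoImplicit false

open Finset
open scoped InnerProductSpace

namespace H391.AE

open Classical in
/-- the linearly independent subsets of R with k elements -/
noncomputable def Ind {n : ℕ} (R : Finset (V n)) (k : ℕ) : Finset (Finset (V n)) :=
  R.powerset.filter fun B => B.card = k ∧ LinearIndepOn ℝ id (B : Set (V n))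

/-- pointwise bound with decay in n independent directions of b -/
def S_P : Prop := ∀ (n : ℕ) (R : Finset (V n)), Simple R → ∃ C : ℝ, 0 ≤ C ∧ ∀ a b : V n,
  ‖E R a (b, 0)‖ ^ 2 ≤ C * (∏ α ∈ R, (|inner ℝ α a| * |inner ℝ α b|)) *
    ∑ B ∈ Ind R n, ∏ α ∈ B, (1 / (1 + (‖a‖ * |inner ℝ α b|) ^ 2))

/-- the uniform bound for labels -/
def S_V : Prop := ∀ (n : ℕ) (R : Finset (V n)), Simple R → ∃ C : ℝ, 0 ≤ C ∧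
  ∀ r : ℕ, 1 ≤ r → ∀ a b : V n, Good R r a → Good R r b → ∀ γ ∈ R,
  ‖E R ((2 * Real.pi / r) • a) (b, 0)‖ ^ 2 ≤
    C * ((r : ℝ) ^ R.card * ∏ β ∈ R, (nd (inner ℝ β a / r) * nd (inner ℝ β b / r))) *
    ((∑ B ∈ Ind R n, ∏ α ∈ B, (1 / (1 + (r * nd (inner ℝ γ a / r) * nd (inner ℝ α b / r)) ^ 2))) +
      ∑ k ∈ range (n + 1), ∑ B₁ ∈ Ind R k, ∑ B₂ ∈ Ind R (n - k),
        (∏ β ∈ B₁, (1 / (r * nd (inner ℝ β b / r)) ^ 2)) * ∏ β ∈ B₂, (1 / (r * nd (inner ℝ β a / r)) ^ 2))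

/-- sums over labels are bounded by products of one dimensional sums -/
def S_lat : Prop := ∀ (n : ℕ) (R : Finset (V n)), Simple R → ∀ δ : V n, Reg R δ → ∀ r : ℕ, 1 ≤ r →
  ∀ B ∈ Ind R n, ∀ f : V n → ℝ → ℝ, (∀ β t, 0 ≤ f β t) →
  ∑ b ∈ labels R δ r, ∏ β ∈ B, f β (inner ℝ β b) ≤
    ∏ β ∈ B, ∑ q ∈ Icc (1 : ℕ) 3, ∑ z ∈ Icc (-(3 * (r : ℤ))) (3 * (r : ℤ)), f β ((z : ℝ) / q)

open Classical in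
/-- one dimensional sums -/
def S_one : Prop := ∃ C : ℝ, 0 ≤ C ∧ ∀ r : ℕ, 1 ≤ r →
  (∀ M : ℝ, 0 < M → M ≤ r → ∑ q ∈ Icc (1 : ℕ) 3, ∑ z ∈ Icc (-(3 * (r : ℤ))) (3 * (r : ℤ)),
    1 / (1 + (M * nd ((z : ℝ) / q / r)) ^ 2) ≤ C * (r / M)) ∧
  ∑ q ∈ Icc (1 : ℕ) 3, ∑ z ∈ Icc (-(3 * (r : ℤ))) (3 * (r : ℤ)),
    (if 1 / (3 * (r : ℝ)) ≤ nd ((z : ℝ) / q / r) then 1 / (r * nd ((z : ℝ) / q / r)) ^ 2 else 0) ≤ C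

/-- sums over labels, n independent directions -/
def S_s4 : Prop := ∀ (n : ℕ) (R : Finset (V n)), Simple R → ∀ δ : V n, Reg R δ → ∃ C : ℝ, 0 ≤ C ∧
  ∀ r : ℕ, 1 ≤ r → ∀ M : ℝ, 0 < M → M ≤ r → ∀ B ∈ Ind R n,
  ∑ b ∈ labels R δ r, ∏ α ∈ B, (1 / (1 + (M * nd (inner ℝ α b / r)) ^ 2)) ≤ C * (r / M) ^ n

/-- sums over labels, k independent directions -/
def S_s5 : Prop := ∀ (n : ℕ) (R : Finset (V n)), Simple R → ∀ δ : V n, Reg R δ → ∃ C : ℝ, 0 ≤ C ∧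
  ∀ r : ℕ, 1 ≤ r → ∀ k ≤ n, ∀ B ∈ Ind R k,
  ∑ b ∈ labels R δ r, ∏ β ∈ B, (1 / (r * nd (inner ℝ β b / r)) ^ 2) ≤ C * (r : ℝ) ^ (n - k)

/-- dyadic summation -/
def S_dy : Prop := ∀ n : ℕ, 1 ≤ n → ∀ C : ℝ, 0 ≤ C → ∃ C' : ℝ, 0 ≤ C' ∧ ∀ r : ℕ, 2 ≤ r →
  ∀ (ι : Type) (L : Finset ι) (M : ι → ℝ), (∀ a ∈ L, 1 / 3 ≤ M a ∧ M a ≤ r) →
  (∀ X : ℝ, 1 ≤ X → ((L.filter fun a => M a ≤ X).card : ℝ) ≤ C * X ^ n) →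
  ∑ a ∈ L, (r / M a) ^ n ≤ C' * ((r : ℝ) ^ n * Real.log r)

/-- the ratio is bounded -/
def S_sup : Prop := ∀ (n : ℕ) (R : Finset (V n)), Simple R → ∀ δ : V n, Reg R δ → ∃ C : ℝ, 0 ≤ C ∧
  ∀ r : ℕ, 1 ≤ r → ∀ a ∈ labels R δ r, ∀ b ∈ labels R δ r, 0 ≤ G R r a b ∧ G R r a b ≤ C

/-- upper bound for p = 1 -/
def S_up1 : Prop := ∀ (n : ℕ) (R : Finset (V n)), Simple R → ∀ δ : V n, Reg R δ →
  ∃ C : ℝ, 0 ≤ C ∧ ∀ r : ℕ, 2 ≤ r →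
  ∑ a ∈ labels R δ r, ∑ b ∈ labels R δ r, G R r a b ≤ C * ((r : ℝ) ^ n * Real.log r)

/-- upper bound for all p -/
def S_upp : Prop := ∀ (n : ℕ) (R : Finset (V n)), Simple R → ∀ δ : V n, Reg R δ → ∀ p : ℕ, 1 ≤ p →
  ∃ C : ℝ, 0 ≤ C ∧ ∀ r : ℕ, 2 ≤ r →
  ∑ a ∈ labels R δ r, ∑ b ∈ labels R δ r, G R r a b ^ p ≤ C * ((r : ℝ) ^ n * Real.log r)

end H391.AE
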