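import Mathlib
import Pool.Graph.R_seed8.W719.AEC.Main
import Pool.Agent.H391.AE.S2
import Pool.Agent.H391.AE.Fin

set_option autoImplicit false

open Finset Filter Topology
open scoped InnerProductSpace

namespace H391.AE

theorem fin_main2 (hup : S_upp) (hlow : S_low) (hZ : S_Z) :
    ∀ (n : ℕ) (R : Finset (V n)), Simple R → ∀ δ : V n, Reg R δ → ∀ p : ℕ, 1 ≤ p →
      Concl R δ p := by
  intro n R hR δ hδ p hp
  obtain ⟨C, hC0, hC⟩ := hup n R hR δ hδ p hp
  obtain ⟨c, hc0, hc⟩ := hlow n R hR δ hδ p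
  obtain ⟨K, hK0, hK⟩ := hZ n R hR δ hδ p
  have key : ∀ᶠ r : ℕ in atTop,
      (K * c) * ((r : ℝ) ^ (p * (n + R.card) + n) * Real.log r) ≤ ‖Z R δ (multiEdge p) r‖ ∧
        ‖Z R δ (multiEdge p) r‖ ≤ (K * C) * ((r : ℝ) ^ (p * (n + R.card) + n) * Real.log r) := by
    filter_upwards [hc, eventually_ge_atTop 2] with r h1 h2
    have hr : 1 ≤ r := by omega
    have hr0 : (0 : ℝ) < (r : ℝ) := by exact_mod_cast (by omega : 0 < r)
    have hpow : (0 : ℝ) < K * (r : ℝ) ^ (p * (n + R.card)) := by positivity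
    rw [hK r hr]
    constructor
    · have := mul_le_mul_of_nonneg_left h1 hpow.le
      calc (K * c) * ((r : ℝ) ^ (p * (n + R.card) + n) * Real.log r)
          = K * (r : ℝ) ^ (p * (n + R.card)) * (c * ((r : ℝ) ^ n * Real.log r)) := by
            rw [pow_add]; ring
        _ ≤ _ := this
    · have := mul_le_mul_of_nonneg_left (hC r h2) hpow.le
      calc _ ≤ K * (r : ℝ) ^ (p * (n + R.card)) * (C * ((r : ℝ) ^ n * Real.log r)) := this
        _ = (K * C) * ((r : ℝ) ^ (p * (n + R.card) + n) * Real.log r) := by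
            rw [pow_add]; ring
  refine ⟨⟨K * c, K * C, by positivity, key⟩, ?_⟩
  intro ω hω h
  set s : ℝ := ((p * (n + R.card) + n : ℕ) : ℝ) with hs
  let ω' : ℕ → ℂ := fun r => if h ≤ r then ω (r - h) else 1
  have hω' : ∀ r, ‖ω' r‖ = 1 := by
    intro r
    by_cases hh : h ≤ r
    · simp [ω', hh, hω]
    · simp [ω', hh]
  let F : ℕ → ℂ := fun r => ω' r * Z R δ (multiEdge p) r
  have hFn : ∀ r, ‖F r‖ = ‖Z R δ (multiEdge p) r‖ := by
    intro r
    simp [F, norm_mul, hω']
  have hfun : (fun k => ω k * Z R δ (multiEdge p) (k + h)) = fun k => F (k + h) := by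
    funext k
    simp [F, ω']
  rw [hfun]
  refine W719AEC.not_hasExpansion h s F (K * C) 1 ?_ ?_
  · filter_upwards [key, eventually_ge_atTop 2] with r h1 h2
    have hr0 : (0 : ℝ) < (r : ℝ) := by exact_mod_cast (by omega : 0 < r)
    rw [hFn, hs, Real.rpow_natCast, pow_one]
    refine h1.2.trans ?_
    have : (0:ℝ) ≤ K * C := by positivity
    refine mul_le_mul_of_nonneg_left ?_ this
    refine mul_le_mul_of_nonneg_left ?_ (by positivity)
    linarith
  · have hlog : Tendsto (fun r : ℕ => (K * c) * Real.log r) atTop atTop :=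
      Tendsto.const_mul_atTop (by positivity) (Real.tendsto_log_atTop.comp tendsto_natCast_atTop_atTop)
    refine tendsto_atTop_mono' atTop ?_ hlog
    filter_upwards [key, eventually_ge_atTop 2] with r h1 h2
    have hr0 : (0 : ℝ) < (r : ℝ) := by exact_mod_cast (by omega : 0 < r)
    have hp0 : (0 : ℝ) < (r : ℝ) ^ (p * (n + R.card) + n) := by positivity
    rw [hFn, hs, Real.rpow_natCast, le_div_iff₀ hp0]
    calc K * c * Real.log r * (r : ℝ) ^ (p * (n + R.card) + n)
        = (K * c) * ((r : ℝ) ^ (p * (n + R.card) + n) * Real.log r) := by ring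
      _ ≤ _ := h1.1

end H391.AE
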