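import Mathlib
import Pool.Agent.H391.AE.Fin
import Pool.Agent.H391.AE.Fin2
import Pool.Agent.H391.AE.P.fin
import Pool.Agent.H391.AE.P.W
import Pool.Agent.H391.AE.P.alt
import Pool.Agent.H391.AE.P.ld
import Pool.Agent.H391.AE.P.proj
import Pool.Agent.H391.AE.P.comp
import Pool.Agent.H391.AE.P.gv
import Pool.Agent.H391.AE.P.ca
import Pool.Agent.H391.AE.P.cl
import Pool.Agent.H391.AE.P.F1
import Pool.Agent.H391.AE.P.rs
import Pool.Agent.H391.AE.P.sub
import Pool.Agent.H391.AE.P.sp
import Pool.Agent.H391.AE.P.cov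
import Pool.Agent.H391.AE.P.hb
import Pool.Agent.H391.AE.P.ac
import Pool.Agent.H391.AE.P.q
import Pool.Agent.H391.AE.P.dd
import Pool.Agent.H391.AE.P.nd
import Pool.Agent.H391.AE.P.U
import Pool.Agent.H391.AE.P.lab
import Pool.Agent.H391.AE.P.cnt
import Pool.Agent.H391.AE.P.pol
import Pool.Agent.H391.AE.P.tay
import Pool.Agent.H391.AE.P.ch
import Pool.Agent.H391.AE.P.lp
import Pool.Agent.H391.AE.P.cl2
import Pool.Agent.H391.AE.P.low
import Pool.Agent.H391.AE.P.wdf
import Pool.Agent.H391.AE.P.idx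
import Pool.Agent.H391.AE.P.Z
import Pool.Agent.H391.AE.Q.P
import Pool.Agent.H391.AE.Q.V
import Pool.Agent.H391.AE.Q.lat
import Pool.Agent.H391.AE.Q.one
import Pool.Agent.H391.AE.Q.s4
import Pool.Agent.H391.AE.Q.s5
import Pool.Agent.H391.AE.Q.dy
import Pool.Agent.H391.AE.Q.sup
import Pool.Agent.H391.AE.Q.up1
import Pool.Agent.H391.AE.Q.upp

/-!
# Assembly
-/

set_option autoImplicit false

namespace H391.AE

theorem main2 : ∀ (n : ℕ) (R : Finset (V n)), Simple R → ∀ δ : V n, Reg R δ → ∀ p : ℕ, 1 ≤ p →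
    Concl R δ p := by
  have hfin : S_fin := P_fin.main
  have hW : S_W := P_W.main hfin
  have halt : S_alt := P_alt.main hW
  have hld : S_ld := P_ld.main hW
  have hproj : S_proj := P_proj.main hW
  have hcomp : S_comp := P_comp.main
  have hgv : S_gv := P_gv.main
  have hca : S_ca := P_ca.main
  have hcl : S_cl := P_cl.main hW halt hgv hca
  have hsub : S_sub := P_sub.main hW
  have hF1 : S_F1 := P_F1.main hW halt hld hproj hsub hcomp hcl
  have hrs : S_rs := P_rs.main hW
  have hsp : S_sp := P_sp.main hrs hW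
  have hcov : S_cov := P_cov.main hrs hW hsp
  have hhb : S_hb := P_hb.main hW halt hld hF1 hsub hcomp hcl hcov
  have hac : S_ac := P_ac.main
  have hq : S_q := P_q.main
  have hdd : S_dd := P_dd.main hW hsub hld
  have hnd : S_nd := P_nd.main hq
  have hU : S_U := P_U.main hW hF1 hhb hsub hsp hcov hac hdd hq hnd
  have hlab : S_lab := P_lab.main hW
  have hcnt : S_cnt := P_cnt.main hlab
  have hP : S_P := Q_P.main hW halt hld hF1 hsub hcomp hcl hsp
  have hV : S_V := Q_V.main hW hF1 hP hsub hsp hac hdd hq hnd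
  have hlat : S_lat := Q_lat.main hW hq hlab
  have hone : S_one := Q_one.main
  have hs4 : S_s4 := Q_s4.main hlat hone
  have hs5 : S_s5 := Q_s5.main hlat hone hnd hlab
  have hdy : S_dy := Q_dy.main
  have hsup : S_sup := Q_sup.main hU hnd hlab
  have hup1 : S_up1 := Q_up1.main hV hnd hlab hcnt hs4 hs5 hdy
  have hupp : S_upp := Q_upp.main hup1 hsup
  have hpol : S_pol := P_pol.main hW
  have htay : S_tay := P_tay.main hW hF1
  have hch : S_ch := P_ch.main hW
  have hlp : S_lp := P_lp.main hW halt hpol htay hch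
  have hcl2 : S_cl2 := P_cl2.main
  have hlow : S_low := P_low.main hW hlab hlp hcl2
  have hwdf : S_wdf := P_wdf.main hW hrs hch
  have hidx : S_idx := P_idx.main hW hq
  have hZ : S_Z := P_Z.main hW hlab hwdf hidx
  exact fin_main2 hupp hlow hZ

end H391.AE
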